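import Mathlib
import Pool.Agent.Helper92.Avg2.Main

/-!
# Lang's inequality on average over all algebraic numbers of given degree

Fix a degree `d ≥ 2`, an interval `[-R, R]` and `ε > 0`. Among the real algebraic numbers of degree
`d` and height at most `H` in `[-R, R]`, the proportion of those that violate
`|ξ - p/q| > c / (q² (log q)^(1+ε))` for some `p` and some `2 ≤ q ≤ H^(3/2-κ)` is at most `C c` for
all large `H`, where `C` depends on `d, R, ε` only.
-/

set_option autoImplicit false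

namespace Pool.Agent.Results.MP_c307ca_nt.AverageThreeHalves

/-- Let `d ≥ 2`, `R ≥ 1`, `ε > 0`. There is `C` such that for all `c > 0`, all `κ > 0` and all
sufficiently large `H` the following holds. Let `S` be the set of real numbers `ξ` with `|ξ| ≤ R`,
algebraic of degree exactly `d`, that are roots of a nonzero integer polynomial of degree at most `d`
with all coefficients in `[-H, H]`. Then `S` is finite and at most `C * c * #S` elements `ξ` of `S`
admit a fraction `p/q` with `2 ≤ q ≤ H^(3/2-κ)` and `|ξ - p/q| ≤ c / (q² (log q)^(1+ε))`. -/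
theorem result (d : ℕ) (hd : 2 ≤ d) (R : ℝ) (hR : 1 ≤ R) (ε : ℝ) (hε : 0 < ε) :
    ∃ C : ℝ, ∀ c : ℝ, 0 < c → ∀ κ : ℝ, 0 < κ → ∀ᶠ H : ℕ in Filter.atTop, ∀ S : Set ℝ,
      S = {ξ : ℝ | |ξ| ≤ R ∧ (minpoly ℚ ξ).natDegree = d ∧
        ∃ P : Polynomial ℤ, P ≠ 0 ∧ P.natDegree ≤ d ∧ (∀ i, |P.coeff i| ≤ (H : ℤ)) ∧
          Polynomial.aeval ξ P = 0} →
      S.Finite ∧
      (Set.ncard {ξ ∈ S | ∃ (p : ℤ) (q : ℕ), 2 ≤ q ∧ (q : ℝ) ≤ (H : ℝ) ^ (3 / 2 - κ) ∧
          |ξ - (p : ℝ) / (q : ℝ)| ≤ c / ((q : ℝ) ^ 2 * (Real.log (q : ℝ)) ^ (1 + ε))} : ℝ)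
        ≤ C * c * (Set.ncard S : ℝ) := by
  obtain ⟨C, hC⟩ := Pool.Agent.Helper92.Avg2.average_lang2 hd hR hε
  refine ⟨C, ?_⟩
  intro c hc κ hκ
  filter_upwards [hC c hc κ hκ] with H hH
  rintro S rfl
  exact ⟨Pool.Agent.Helper92.Avg.algNums_finite d H R, hH⟩

end Pool.Agent.Results.MP_c307ca_nt.AverageThreeHalves
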