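import Mathlib
import Pool.Agent.Helper92.LangDefs
import Pool.Agent.Helper92.LangCubic

/-!
# Lang's inequality is a property of the cubic field

For a real algebraic number `ξ` of degree 3 and any irrational `η` in the field `ℚ(ξ)`, the
inequality of Q1 holds for `ξ` (and a given exponent `ε`) if and only if it holds for `η`.
The reason: `1, ξ, η, ξη` are linearly dependent over `ℚ`, so `η` is the image of `ξ` under a
fractional linear map with integer coefficients and nonzero determinant, and such a map distorts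
denominators and approximations by bounded factors only.
-/

set_option autoImplicit false

namespace Pool.Agent.Results.MP_c307ca_nt.CubicField

open Pool.Agent.Helper92

/-- Let `ξ` be a real algebraic number of degree 3, `η` an irrational element of `ℚ(ξ)`, and
`ε > 0`. Then there is `c > 0` with `|ξ - p/q| > c / (q² (log q)^(1+ε))` for all `p` and all
`q ≥ 2` if and only if there is such a `c` for `η`. -/
theorem result (ξ η ε : ℝ) (hε : 0 < ε) (hξ : (minpoly ℚ ξ).natDegree = 3)
    (hη : η ∈ IntermediateField.adjoin ℚ ({ξ} : Set ℝ)) (hirr : Irrational η) :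
    (∃ c : ℝ, 0 < c ∧ ∀ p : ℤ, ∀ q : ℕ, 2 ≤ q →
      c / ((q : ℝ) ^ 2 * (Real.log (q : ℝ)) ^ (1 + ε)) < |ξ - (p : ℝ) / (q : ℝ)|) ↔
    (∃ c : ℝ, 0 < c ∧ ∀ p : ℤ, ∀ q : ℕ, 2 ≤ q →
      c / ((q : ℝ) ^ 2 * (Real.log (q : ℝ)) ^ (1 + ε)) < |η - (p : ℝ) / (q : ℝ)|) :=
  langAt_iff_of_mem_cubic hε hξ hη hirr

end Pool.Agent.Results.MP_c307ca_nt.CubicField
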