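import Pool.Agent.Helper65.OH2.Final

open Pool.Agent.Helper65.LinSpace Pool.Agent.Helper65.OH

namespace Pool.Agent.Results.MP_c578c8_lc.OneHead

/-- **Turing machines with one head and with running time `n^(5/2) / log^6 n`, or with any polynomial
running time and this number of steps which are not free, are in linear space, but do not even compute
all of linear space on average.** A step is free if after it the head is on a cell which it has already
visited since the last change of the content of a cell; only `x` of the steps of an accepting
computation are counted. Let `c` be a number. Every language accepted by a Turing machine with one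
head on a `D`-dimensional tape, at most `c n` guessed bits and the following bounds
(`OneHead.Within`) is in `DSPACE(n)`: the running time is at most `2^h (x + 1)`, and
`x s^(1 + 1/D) l^4 ≤ C (n + 1)^(3/2 + 1/D)`, `(s + l) (h + 1) l ≤ C (n + 1)^(1/2)`, where `s` bounds
the length of the words (state, address, contents of the cells) and `l = h + log n + 1`. For `D = 1`,
`s = O(log n)`, `h = O(log n)` this is `x ≤ C' n^(5/2) / log^6 n`. On the other hand there are a
language `L` in `DSPACE(n)` and masks `s n` of length `n` such that `L` consists of the words `w` whose
inner product with `s |w|` is odd, and for every dimension `D`, every machine and every `C` there is a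
`c'` such that for `M = L` and for `M` the complement of `L`, for all `n` and all advice words `α`
(written in front of the guess), the machine is correct within these bounds on at most
`2^n / 2 + c' (min (|α|, n - |α|) + 1) 2^((n + |α|) / 2)` words of length `n`. -/
theorem result (c : ℕ) :
    (∀ (D : ℕ), 0 < D → ∀ (A : OneHead D) (L : Set (List Bool)) (C : ℝ),
      (∀ w y r, A.AcceptsAt w y r → w ∈ L) →
      (∀ w ∈ L, ∃ y : List Bool, y.length ≤ c * w.length ∧ A.Within C w y) → DLINSPACE L) ∧
    ∃ (L : Set (List Bool)) (s : ℕ → List Bool), DLINSPACE L ∧
      (∀ n, (s n).length = n) ∧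
      (∀ w, w ∈ L ↔ Odd ((List.zipWith and (s w.length) w).count true)) ∧
      ∀ (D : ℕ), 0 < D → ∀ (A : OneHead D) (C : ℝ), ∃ c' : ℝ, ∀ (n : ℕ) (α : List Bool),
        ∀ M, M = L ∨ M = Lᶜ →
          ({w : List Bool | w.length = n ∧
            (∀ v r, A.AcceptsAt w (α ++ v) r → w ∈ M) ∧
            (w ∈ M → ∃ v : List Bool, v.length ≤ c * n ∧ A.Within C w (α ++ v))}.ncard : ℝ) ≤
          2 ^ n / 2 +
            c' * ((min α.length (n - α.length) : ℕ) + 1) * 2 ^ (((n : ℝ) + α.length) / 2) :=
  ⟨fun _ hD A L C => oh2_lin simP parts2 c hD A L C, oh2_main simP parts2 c⟩

end Pool.Agent.Results.MP_c578c8_lc.OneHead
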